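import Mathlib
import Pool.Agent.Helper160.R3Dual
import Pool.Agent.Helper214.PavDual

set_option autoImplicit false

namespace Pool.Agent.Results.MP_c72610_co.RankThreeAndPaving

open Classical in
/-- `M` is Rayleigh: `B_ef B ≤ B_e B_f`. -/
def Rayleigh {α : Type} [Fintype α] (M : Matroid α) : Prop :=
  ∀ z : α → ℝ, (∀ x, 0 < z x) → ∀ e f : α, e ≠ f →
    (∑ A : Finset α, if M.IsBase (A : Set α) ∧ e ∈ A ∧ f ∈ A then ∏ x ∈ A, z x else 0) *
      (∑ A : Finset α, if M.IsBase (A : Set α) then ∏ x ∈ A, z x else 0) ≤
    (∑ A : Finset α, if M.IsBase (A : Set α) ∧ e ∈ A then ∏ x ∈ A, z x else 0) *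
      (∑ A : Finset α, if M.IsBase (A : Set α) ∧ f ∈ A then ∏ x ∈ A, z x else 0)

open Classical in
/-- `M` is independence-correlated: `i_ef i ≤ i_e i_f`. -/
def IndepCorrelated {α : Type} [Fintype α] (M : Matroid α) : Prop :=
  ∀ z : α → ℝ, (∀ x, 0 < z x) → ∀ e f : α, e ≠ f →
    (∑ A : Finset α, if M.Indep (A : Set α) ∧ e ∈ A ∧ f ∈ A then ∏ x ∈ A, z x else 0) *
      (∑ A : Finset α, if M.Indep (A : Set α) then ∏ x ∈ A, z x else 0) ≤
    (∑ A : Finset α, if M.Indep (A : Set α) ∧ e ∈ A then ∏ x ∈ A, z x else 0) *
      (∑ A : Finset α, if M.Indep (A : Set α) ∧ f ∈ A then ∏ x ∈ A, z x else 0)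

open Classical in
/-- `M` is spanning-correlated: `s_ef s ≤ s_e s_f`. -/
def SpanningCorrelated {α : Type} [Fintype α] (M : Matroid α) : Prop :=
  ∀ z : α → ℝ, (∀ x, 0 < z x) → ∀ e f : α, e ≠ f →
    (∑ A : Finset α, if M.Spanning (A : Set α) ∧ e ∈ A ∧ f ∈ A then ∏ x ∈ A, z x else 0) *
      (∑ A : Finset α, if M.Spanning (A : Set α) then ∏ x ∈ A, z x else 0) ≤
    (∑ A : Finset α, if M.Spanning (A : Set α) ∧ e ∈ A then ∏ x ∈ A, z x else 0) *
      (∑ A : Finset α, if M.Spanning (A : Set α) ∧ f ∈ A then ∏ x ∈ A, z x else 0)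

/-- `M` is paving: every set of elements smaller than a base is independent. -/
def Paving {α : Type} [Fintype α] (M : Matroid α) : Prop :=
  ∀ A B : Finset α, (A : Set α) ⊆ M.E → M.IsBase (B : Set α) → A.card < B.card →
    M.Indep (A : Set α)

/-- (1) Every matroid of rank three is spanning-correlated. (2) Every matroid whose dual has rank
three is independence-correlated. (3) A paving matroid is Rayleigh iff it is
independence-correlated. (4) A matroid whose dual is paving is Rayleigh iff it is
spanning-correlated. -/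
theorem result :
    (∀ (α : Type) [Fintype α] (M : Matroid α), M.eRank = 3 → SpanningCorrelated M) ∧
    (∀ (α : Type) [Fintype α] (M : Matroid α), M✶.eRank = 3 → IndepCorrelated M) ∧
    (∀ (α : Type) [Fintype α] (M : Matroid α), Paving M → (Rayleigh M ↔ IndepCorrelated M)) ∧
    (∀ (α : Type) [Fintype α] (M : Matroid α), Paving M✶ →
      (Rayleigh M ↔ SpanningCorrelated M)) := by
  classical
  have hB : ∀ (α : Type) [Fintype α] (M : Matroid α), Rayleigh M ↔
      Helper214.PavMain.NegCorr (fun A : Finset α => M.IsBase (A : Set α)) := by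
    intro α _ M
    unfold Rayleigh Helper214.PavMain.NegCorr
    refine forall_congr' fun z => forall_congr' fun hz => forall_congr' fun e =>
      forall_congr' fun f => forall_congr' fun hef => ?_
    constructor <;> intro h <;> convert h
  have hI : ∀ (α : Type) [Fintype α] (M : Matroid α), IndepCorrelated M ↔
      Helper214.PavMain.NegCorr (fun A : Finset α => M.Indep (A : Set α)) := by
    intro α _ M
    unfold IndepCorrelated Helper214.PavMain.NegCorr
    refine forall_congr' fun z => forall_congr' fun hz => forall_congr' fun e =>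
      forall_congr' fun f => forall_congr' fun hef => ?_
    constructor <;> intro h <;> convert h
  have hS : ∀ (α : Type) [Fintype α] (M : Matroid α), SpanningCorrelated M ↔
      Helper214.PavMain.NegCorr (fun A : Finset α => M.Spanning (A : Set α)) := by
    intro α _ M
    unfold SpanningCorrelated Helper214.PavMain.NegCorr
    refine forall_congr' fun z => forall_congr' fun hz => forall_congr' fun e =>
      forall_congr' fun f => forall_congr' fun hef => ?_
    constructor <;> intro h <;> convert h
  refine ⟨fun α _ M h3 z hz e f hef =>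
      Pool.Agent.Helper160.R3.rank3_spanning M h3 z hz e f hef, fun α _ M h3 z hz e f hef =>
      Pool.Agent.Helper160.R3.corank3_indep M h3 z hz e f hef, ?_, ?_⟩
  · intro α _ M hM
    rw [hI, hB]
    exact ⟨fun hR => Helper214.PavMain.paving_indep hM hR,
      fun hI => Helper214.PavMain.base_of_indep M hI⟩
  · intro α _ M hM
    rw [hS, hB]
    exact ⟨fun hR => Helper214.PavMain.paving_spanning hM hR,
      fun hS => Helper214.PavMain.base_of_spanning M hS⟩

end Pool.Agent.Results.MP_c72610_co.RankThreeAndPaving
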