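import Mathlib
import Pool.Agent.Helper160.R3Dual

set_option autoImplicit false

open Classical

namespace Pool.Agent.Results.MP_c72610_co.RankThreeCorankThree

/-- `spanSum M z U` is the sum of the products `∏ x ∈ A, z x` over all spanning sets `A` of `M`
that contain `U`. -/
noncomputable def spanSum {α : Type} [Fintype α] (M : Matroid α) (z : α → ℝ) (U : Set α) : ℝ :=
  ∑ A : Finset α, if M.Spanning (A : Set α) ∧ U ⊆ (A : Set α) then ∏ x ∈ A, z x else 0

/-- `indepSum M z U` is the sum of the products `∏ x ∈ A, z x` over all independent sets `A` of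
`M` that contain `U`. -/
noncomputable def indepSum {α : Type} [Fintype α] (M : Matroid α) (z : α → ℝ) (U : Set α) : ℝ :=
  ∑ A : Finset α, if M.Indep (A : Set α) ∧ U ⊆ (A : Set α) then ∏ x ∈ A, z x else 0

/-- `M` is spanning-correlated. -/
def SpanningCorrelated {α : Type} [Fintype α] (M : Matroid α) : Prop :=
  ∀ z : α → ℝ, (∀ x, 0 < z x) → ∀ e ∈ M.E, ∀ f ∈ M.E, e ≠ f →
    spanSum M z {e, f} * spanSum M z ∅ ≤ spanSum M z {e} * spanSum M z {f}

/-- `M` is independence-correlated. -/
def IndependenceCorrelated {α : Type} [Fintype α] (M : Matroid α) : Prop :=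
  ∀ z : α → ℝ, (∀ x, 0 < z x) → ∀ e ∈ M.E, ∀ f ∈ M.E, e ≠ f →
    indepSum M z {e, f} * indepSum M z ∅ ≤ indepSum M z {e} * indepSum M z {f}

/-- Every matroid of rank three on a finite set is spanning-correlated, and every matroid of
corank three on a finite set is independence-correlated. -/
theorem result :
    ∀ (α : Type) [Fintype α] (M : Matroid α),
      (M.eRank = 3 → SpanningCorrelated M) ∧ (M✶.eRank = 3 → IndependenceCorrelated M) := by
  intro α _ M
  constructor
  · intro h3 z hz e _ f _ hef
    have h := Pool.Agent.Helper160.R3.rank3_spanning M h3 z hz e f hef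
    have e1 : spanSum M z {e, f} =
        ∑ A : Finset α, if M.Spanning (A : Set α) ∧ e ∈ A ∧ f ∈ A then ∏ x ∈ A, z x else 0 := by
      apply Finset.sum_congr rfl
      intro A _
      simp only [Set.insert_subset_iff, Set.singleton_subset_iff, Finset.mem_coe]
    have e2 : spanSum M z ∅ =
        ∑ A : Finset α, if M.Spanning (A : Set α) then ∏ x ∈ A, z x else 0 := by
      apply Finset.sum_congr rfl
      intro A _
      simp only [Set.empty_subset, and_true]
    have e3 : ∀ a : α, spanSum M z {a} =
        ∑ A : Finset α, if M.Spanning (A : Set α) ∧ a ∈ A then ∏ x ∈ A, z x else 0 := by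
      intro a
      apply Finset.sum_congr rfl
      intro A _
      simp only [Set.singleton_subset_iff, Finset.mem_coe]
    rw [e1, e2, e3, e3]
    exact h
  · intro h3 z hz e _ f _ hef
    have h := Pool.Agent.Helper160.R3.corank3_indep M h3 z hz e f hef
    have e1 : indepSum M z {e, f} =
        ∑ A : Finset α, if M.Indep (A : Set α) ∧ e ∈ A ∧ f ∈ A then ∏ x ∈ A, z x else 0 := by
      apply Finset.sum_congr rfl
      intro A _
      simp only [Set.insert_subset_iff, Set.singleton_subset_iff, Finset.mem_coe]
    have e2 : indepSum M z ∅ =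
        ∑ A : Finset α, if M.Indep (A : Set α) then ∏ x ∈ A, z x else 0 := by
      apply Finset.sum_congr rfl
      intro A _
      simp only [Set.empty_subset, and_true]
    have e3 : ∀ a : α, indepSum M z {a} =
        ∑ A : Finset α, if M.Indep (A : Set α) ∧ a ∈ A then ∏ x ∈ A, z x else 0 := by
      intro a
      apply Finset.sum_congr rfl
      intro A _
      simp only [Set.singleton_subset_iff, Finset.mem_coe]
    rw [e1, e2, e3, e3]
    exact h

end Pool.Agent.Results.MP_c72610_co.RankThreeCorankThree
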