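import Mathlib
import Pool.Agent.Helper214.PavDual

namespace Pool.Agent.Results.MP_c72610_co.SparsePaving

universe u

variable {α : Type u} [DecidableEq α] [Fintype α]

open Classical in
/-- `M` is Rayleigh: `B_ef B ≤ B_e B_f` for all positive weights and all distinct `e, f`. -/
def Rayleigh (M : Matroid α) : Prop :=
  ∀ z : α → ℝ, (∀ x, 0 < z x) → ∀ e f : α, e ≠ f →
    (∑ A : Finset α, if M.IsBase (A : Set α) ∧ e ∈ A ∧ f ∈ A then ∏ x ∈ A, z x else 0) *
      (∑ A : Finset α, if M.IsBase (A : Set α) then ∏ x ∈ A, z x else 0) ≤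
    (∑ A : Finset α, if M.IsBase (A : Set α) ∧ e ∈ A then ∏ x ∈ A, z x else 0) *
      (∑ A : Finset α, if M.IsBase (A : Set α) ∧ f ∈ A then ∏ x ∈ A, z x else 0)

open Classical in
/-- `M` is independence-correlated: `i_ef i ≤ i_e i_f`. -/
def IndepCorrelated (M : Matroid α) : Prop :=
  ∀ z : α → ℝ, (∀ x, 0 < z x) → ∀ e f : α, e ≠ f →
    (∑ A : Finset α, if M.Indep (A : Set α) ∧ e ∈ A ∧ f ∈ A then ∏ x ∈ A, z x else 0) *
      (∑ A : Finset α, if M.Indep (A : Set α) then ∏ x ∈ A, z x else 0) ≤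
    (∑ A : Finset α, if M.Indep (A : Set α) ∧ e ∈ A then ∏ x ∈ A, z x else 0) *
      (∑ A : Finset α, if M.Indep (A : Set α) ∧ f ∈ A then ∏ x ∈ A, z x else 0)

open Classical in
/-- `M` is spanning-correlated: `s_ef s ≤ s_e s_f`. -/
def SpanningCorrelated (M : Matroid α) : Prop :=
  ∀ z : α → ℝ, (∀ x, 0 < z x) → ∀ e f : α, e ≠ f →
    (∑ A : Finset α, if M.Spanning (A : Set α) ∧ e ∈ A ∧ f ∈ A then ∏ x ∈ A, z x else 0) *
      (∑ A : Finset α, if M.Spanning (A : Set α) then ∏ x ∈ A, z x else 0) ≤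
    (∑ A : Finset α, if M.Spanning (A : Set α) ∧ e ∈ A then ∏ x ∈ A, z x else 0) *
      (∑ A : Finset α, if M.Spanning (A : Set α) ∧ f ∈ A then ∏ x ∈ A, z x else 0)

/-- `M` is paving: every set of elements smaller than a base is independent. -/
def Paving (M : Matroid α) : Prop :=
  ∀ A B : Finset α, (A : Set α) ⊆ M.E → M.IsBase (B : Set α) → A.card < B.card →
    M.Indep (A : Set α)

/-- (1) A paving matroid is Rayleigh iff it is independence-correlated. (2) A matroid whose dual is
paving is Rayleigh iff it is spanning-correlated. (3) A sparse paving matroid (it and its dual are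
paving) is Rayleigh iff it is correlated, that is, both independence- and spanning-correlated. -/
theorem result :
    (∀ (α : Type u) [DecidableEq α] [Fintype α] (M : Matroid α), Paving M →
      (Rayleigh M ↔ IndepCorrelated M)) ∧
    (∀ (α : Type u) [DecidableEq α] [Fintype α] (M : Matroid α), Paving M✶ →
      (Rayleigh M ↔ SpanningCorrelated M)) ∧
    (∀ (α : Type u) [DecidableEq α] [Fintype α] (M : Matroid α), Paving M → Paving M✶ →
      (Rayleigh M ↔ (IndepCorrelated M ∧ SpanningCorrelated M))) := by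
  have h1 : ∀ (α : Type u) [DecidableEq α] [Fintype α] (M : Matroid α), Paving M →
      (Rayleigh M ↔ IndepCorrelated M) := fun α _ _ M hM =>
    ⟨fun hR => Helper214.PavMain.paving_indep hM hR,
      fun hI => Helper214.PavMain.base_of_indep M hI⟩
  have h2 : ∀ (α : Type u) [DecidableEq α] [Fintype α] (M : Matroid α), Paving M✶ →
      (Rayleigh M ↔ SpanningCorrelated M) := fun α _ _ M hM =>
    ⟨fun hR => Helper214.PavMain.paving_spanning hM hR,
      fun hS => Helper214.PavMain.base_of_spanning M hS⟩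
  exact ⟨h1, h2, fun α _ _ M hM hM' =>
    ⟨fun hR => ⟨(h1 α M hM).1 hR, (h2 α M hM').1 hR⟩, fun hIS => (h1 α M hM).2 hIS.1⟩⟩

end Pool.Agent.Results.MP_c72610_co.SparsePaving
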